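import Pool.Agent.helper58.CRO.SpecD

open scoped Manifold ContDiff Topology ENNReal
open MeasureTheory Set Bundle

noncomputable section

namespace Pool.Agent.CRO

universe u

theorem EXM_dual (n : ℕ) : IsBoundedLinearMap ℝ
    (fun L : StrongDual ℝ (En n) => (InnerProductSpace.toDual ℝ (En n)).symm L) := by
  refine ⟨⟨fun x y => map_add _ x y, fun c x => ?_⟩, 1, one_pos, fun x => ?_⟩
  · rw [map_smulₛₗ]
    simp
  · rw [LinearIsometryEquiv.norm_map, one_mul]

theorem EXM_hvf {n : ℕ} {H : PS n → ℝ} {z : PS n} (hH : ContDiffAt ℝ ∞ H z) :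
    ContDiffAt ℝ 1 (hvf H) z := by
  have h4 : ContDiffAt ℝ 1 (fderiv ℝ H) z := hH.fderiv_right (m := 1) (WithTop.coe_le_coe.2 le_top)
  have h5 : ContDiffAt ℝ 1 (fun w => (fderiv ℝ H w).comp (ContinuousLinearMap.inr ℝ (En n) (En n))) z :=
    h4.clm_comp contDiffAt_const
  have h6 : ContDiffAt ℝ 1 (fun w => (fderiv ℝ H w).comp (ContinuousLinearMap.inl ℝ (En n) (En n))) z :=
    h4.clm_comp contDiffAt_const
  have hd : ContDiff ℝ 1 (fun L : StrongDual ℝ (En n) => (InnerProductSpace.toDual ℝ (En n)).symm L) :=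
    (EXM_dual n).contDiff
  have h7 := hd.contDiffAt.comp z h5
  have h8 := hd.contDiffAt.comp z h6
  exact h7.prodMk h8.neg

theorem EXM_lip {n : ℕ} {r : ℝ} (𝒢 : NChart n r) (z : PS n) (hz : ‖z.1‖ < r) :
    ContDiffAt ℝ 1 (hvf (ham 𝒢)) z := by
  refine EXM_hvf ?_
  have hG : ContDiffAt ℝ ∞ 𝒢.G z.1 :=
    𝒢.smooth.contDiffAt (Metric.isOpen_ball.mem_nhds (by simpa using hz))
  have hGf : ContDiffAt ℝ ∞ (fun w : PS n => 𝒢.G w.1) z := hG.comp z contDiffAt_fst
  have h2 : ContDiffAt ℝ ∞ (fun w : PS n => 𝒢.G w.1 w.2) z := hGf.clm_apply contDiffAt_snd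
  exact (h2.inner ℝ contDiffAt_snd).div_const 2

/-- one-sided local uniqueness -/
theorem EXM_uni {E : Type} [NormedAddCommGroup E] [NormedSpace ℝ E] {F : E → E} {c c2 : ℝ → E}
    {s T y : ℝ} (hsT : s < T) (hsy : s < y) (hF : ContDiffAt ℝ 1 F (c s)) (h0 : c s = c2 s)
    (hc : ∀ t ∈ Icc s T, HasDerivAt c (F (c t)) t)
    (hc2 : ∀ᶠ t in 𝓝 s, HasDerivAt c2 (F (c2 t)) t) :
    ∃ t, s < t ∧ t ≤ y ∧ t ≤ T ∧ ∀ w ∈ Icc s t, c w = c2 w := by
  obtain ⟨K, U, hU, hK⟩ := hF.exists_lipschitzOnWith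
  have hcs : ContinuousAt c s := (hc s ⟨le_refl _, hsT.le⟩).continuousAt
  have hc2s : ContinuousAt c2 s := hc2.self_of_nhds.continuousAt
  have e1 : ∀ᶠ t in 𝓝 s, c t ∈ U := hcs.eventually_mem hU
  have e2 : ∀ᶠ t in 𝓝 s, c2 t ∈ U := hc2s.eventually_mem (h0 ▸ hU)
  obtain ⟨ε, hε, hball⟩ := Metric.eventually_nhds_iff.mp (e1.and (e2.and hc2))
  set t : ℝ := min (min y T) (s + ε / 2) with ht
  have hst : s < t := lt_min (lt_min hsy hsT) (by linarith)
  have hty : t ≤ y := (min_le_left _ _).trans (min_le_left _ _)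
  have htT : t ≤ T := (min_le_left _ _).trans (min_le_right _ _)
  have hte : t ≤ s + ε / 2 := min_le_right _ _
  have hnear : ∀ w ∈ Icc s t, dist w s < ε := by
    intro w hw
    rw [Real.dist_eq, abs_of_nonneg (by linarith [hw.1])]
    linarith [hw.2]
  refine ⟨t, hst, hty, htT, ?_⟩
  have hder : ∀ w ∈ Icc s t, HasDerivAt c (F (c w)) w := fun w hw => hc w ⟨hw.1, hw.2.trans htT⟩
  have h3 : EqOn c c2 (Icc s t) := by
    refine ODE_solution_unique_of_mem_Icc_right (v := fun _ => F) (s := fun _ => U) (K := K)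
      (fun _ _ => hK) (fun w hw => (hder w hw).continuousAt.continuousWithinAt) ?_ ?_ ?_ ?_ ?_ h0
    · exact fun w hw => (hder w ⟨hw.1, hw.2.le⟩).hasDerivWithinAt
    · exact fun w hw => (hball (hnear w ⟨hw.1, hw.2.le⟩)).1
    · exact fun w hw => (hball (hnear w hw)).2.2.continuousAt.continuousWithinAt
    · exact fun w hw => (hball (hnear w ⟨hw.1, hw.2.le⟩)).2.2.hasDerivWithinAt
    · exact fun w hw => (hball (hnear w ⟨hw.1, hw.2.le⟩)).2.1
  exact fun w hw => h3 hw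

theorem EXM (h1 : COE_stmt.{u}) (h2 : GOP_stmt.{u}) (h3 : TRN_stmt.{u}) (h4 : CMP_stmt.{u})
    (h5 : ORB_stmt.{u}) : EXM_stmt.{u} := by
  intro n M _ _ _ _ g χ r r2 L 𝒢 hχ htgt hRep hL hInj x hx
  have hxt : x ∈ χ.target := by
    rw [htgt]
    simpa using hx
  set z : M := χ.symm x with hz
  have hzs : z ∈ χ.source := χ.map_target hxt
  have hχz : χ z = x := χ.right_inv hxt
  obtain ⟨ψ, hψ, hψt, hzψ, hψz, hψ0, hgeo⟩ := hInj z
  obtain ⟨-, A, hA1, hA2⟩ := h3 n M χ hχ ψ hψ z ⟨hzs, hzψ⟩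
  obtain ⟨hgop, hgpos, -, hg1, hg2⟩ := h2 n M g χ hχ x hxt
  have hGx : 𝒢.G x = Matrix.toEuclideanCLM (𝕜 := ℝ) (gmat g χ x)⁻¹ := hRep x hx
  rw [← hGx] at hg1 hg2
  -- the linear isomorphism `G x`
  let Gx : En n ≃L[ℝ] En n := ContinuousLinearEquiv.equivOfInverse (𝒢.G x) (gop g χ x) hg2 hg1
  have hGxa : ∀ q, Gx q = 𝒢.G x q := fun q => rfl
  let Λ : En n ≃L[ℝ] En n := Gx.trans A
  have hΛ : ∀ q, Λ q = A (𝒢.G x q) := fun q => rfl
  have hfd : fderiv ℝ (fun y => ψ (χ.symm y)) (χ z) = (A : En n →L[ℝ] En n) := hA1.fderiv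
  have hnorm : ∀ q, ‖Λ q‖ ^ 2 = nrm2 𝒢 (x, q) := by
    intro q
    rw [← real_inner_self_eq_norm_sq, ← hψ0, ← hψz]
    have e1 := h4 n M g χ hχ ψ hψ z ⟨hzs, hzψ⟩ (𝒢.G x q) (𝒢.G x q)
    rw [hfd] at e1
    change coef g ψ (ψ z) (A (𝒢.G x q)) (A (𝒢.G x q)) = _
    rw [show (A (𝒢.G x q)) = (A : En n →L[ℝ] En n) (𝒢.G x q) from rfl, ← e1, hχz, ← hgop, hg2]
    change inner ℝ q (𝒢.G x q) = inner ℝ (𝒢.G x q) q
    exact real_inner_comm _ _
  refine ⟨fun q => χ (ψ.symm (Λ q)), {q | Λ q ∈ ψ.target ∧ ψ.symm (Λ q) ∈ χ.source}, ?_, ?_, ?_, ?_⟩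
  · have e1 : IsOpen (ψ.symm.source ∩ ψ.symm ⁻¹' χ.source) := ψ.symm.isOpen_inter_preimage χ.open_source
    exact e1.preimage Λ.continuous
  · intro q hq q' hq' hqq
    have e1 : ψ.symm (Λ q) = ψ.symm (Λ q') := χ.injOn hq.2 hq'.2 hqq
    have e2 : Λ q = Λ q' := ψ.symm.injOn hq.1 hq'.1 e1
    exact Λ.injective e2
  · intro q hq
    have e1 : ψ.symm (Λ q) ∈ ψ.source := ψ.map_target hq.1
    obtain ⟨-, B, hB1, -⟩ := h3 n M ψ hψ χ hχ (ψ.symm (Λ q)) ⟨e1, hq.2⟩
    rw [ψ.right_inv hq.1] at hB1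
    refine ⟨Λ.trans B, ?_⟩
    exact hB1.comp q Λ.hasFDerivAt
  · intro c T hT0 hTL hc0 hcn hc
    set p : En n := (c 0).2 with hp
    have hc00 : c 0 = (x, p) := by
      rw [← hc0]
    set v : En n := Λ p with hv
    have hv1 : ‖v‖ < 1 := by
      have e1 : ‖v‖ ^ 2 < 1 := by
        rw [hv, hnorm p, ← hc00]
        exact hcn
      nlinarith [norm_nonneg v]
    have hr2 : 0 < r2 := by linarith
    set γ : ℝ → M := fun t => ψ.symm (t • v) with hγ
    set I : Set ℝ := {t : ℝ | |t| * ‖v‖ < r2} with hI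
    have hIo : IsOpen I := isOpen_lt (by fun_prop) continuous_const
    have hIn : ∀ t ∈ Icc 0 T, t ∈ I := by
      intro t ht
      have e1 : |t| ≤ T := by
        rw [abs_of_nonneg ht.1]
        exact ht.2
      have e2 : |t| * ‖v‖ ≤ T * 1 :=
        mul_le_mul e1 hv1.le (norm_nonneg _) hT0
      change |t| * ‖v‖ < r2
      linarith
    have hIt : ∀ t ∈ I, t • v ∈ ψ.target := by
      intro t ht
      rw [hψt, mem_ball_zero_iff, norm_smul, Real.norm_eq_abs]
      exact ht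
    have hγg : IsGeodesicOn g γ I := hgeo v
    have hγc : ∀ t ∈ I, ContinuousAt γ t := by
      intro t ht
      have e1 : ContinuousAt ψ.symm (t • v) := ψ.symm.continuousAt (hIt t ht)
      exact ContinuousAt.comp (f := fun t : ℝ => t • v) (g := ψ.symm) e1 (by fun_prop)
    set c2 : ℝ → PS n := fun s =>
      ((χ (γ s), gop g χ (χ (γ s)) (deriv (fun u => χ (γ u)) s)) : PS n) with hc2
    have hORB : ∀ t ∈ I, γ t ∈ χ.source → HasDerivAt c2 (hvf (ham 𝒢) (c2 t)) t :=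
      h5 n M g χ r 𝒢 γ I hχ htgt hRep hIo hγg
    have hγ0 : γ 0 = z := by
      change ψ.symm ((0 : ℝ) • v) = z
      rw [zero_smul, ← hψz]
      exact ψ.left_inv hzψ
    have hder0 : HasDerivAt (fun u => χ (γ u)) (A.symm v) 0 := by
      have e1 : HasFDerivAt (fun y => χ (ψ.symm y)) (A.symm : En n →L[ℝ] En n) ((0 : ℝ) • v) := by
        rw [zero_smul, ← hψz]
        exact hA2
      have e2 : HasDerivAt (fun u : ℝ => u • v) v 0 := by
        have := (hasDerivAt_id (0 : ℝ)).smul_const v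
        simpa using this
      exact e1.comp_hasDerivAt (0 : ℝ) e2
    have hc20 : c 0 = c2 0 := by
      rw [hc00]
      change (x, p) = ((χ (γ 0), gop g χ (χ (γ 0)) (deriv (fun u => χ (γ u)) 0)) : PS n)
      rw [hder0.deriv, hγ0, hχz]
      have e1 : A.symm v = 𝒢.G x p := by
        rw [hv, hΛ]
        exact A.symm_apply_apply _
      rw [e1, hg2]
    have hmain : Icc 0 T ⊆ {t | γ t ∈ χ.source ∧ c t = c2 t} := by
      refine IsClosed.Icc_subset_of_forall_exists_gt ?_ ?_ ?_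
      · refine isClosed_of_closure_subset ?_
        intro t ht
        have htI : t ∈ Icc 0 T := by
          have := closure_mono (inter_subset_right : {t | γ t ∈ χ.source ∧ c t = c2 t} ∩ Icc 0 T ⊆ Icc 0 T) ht
          rwa [isClosed_Icc.closure_eq] at this
        have : (𝓝[{t | γ t ∈ χ.source ∧ c t = c2 t} ∩ Icc 0 T] t).NeBot :=
          mem_closure_iff_nhdsWithin_neBot.mp ht
        have hct := (hc t htI).2.continuousAt
        have hctt : (c t).1 ∈ χ.target := by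
          rw [htgt]
          simpa using (hc t htI).1
        have e1 : Filter.Tendsto γ (𝓝[{t | γ t ∈ χ.source ∧ c t = c2 t} ∩ Icc 0 T] t) (𝓝 (γ t)) :=
          (hγc t (hIn t htI)).tendsto.mono_left nhdsWithin_le_nhds
        have e2 : ContinuousAt (fun s => χ.symm (c s).1) t := by
          have e3 : ContinuousAt χ.symm (c t).1 := χ.symm.continuousAt hctt
          exact ContinuousAt.comp (f := fun s => (c s).1) (g := χ.symm) e3 (continuous_fst.continuousAt.comp hct)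
        have e4 : Filter.Tendsto γ (𝓝[{t | γ t ∈ χ.source ∧ c t = c2 t} ∩ Icc 0 T] t)
            (𝓝 (χ.symm (c t).1)) := by
          refine (e2.tendsto.mono_left nhdsWithin_le_nhds).congr' ?_
          filter_upwards [self_mem_nhdsWithin] with s hs
          have e5 : (c s).1 = χ (γ s) := by
            rw [hs.1.2]
          rw [e5, χ.left_inv hs.1.1]
        have e6 : γ t = χ.symm (c t).1 := tendsto_nhds_unique e1 e4
        have e7 : γ t ∈ χ.source := by
          rw [e6]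
          exact χ.map_target hctt
        have e8 : ContinuousAt c2 t := (hORB t (hIn t htI) e7).continuousAt
        have e9 : Filter.Tendsto c (𝓝[{t | γ t ∈ χ.source ∧ c t = c2 t} ∩ Icc 0 T] t) (𝓝 (c2 t)) := by
          refine (e8.tendsto.mono_left nhdsWithin_le_nhds).congr' ?_
          filter_upwards [self_mem_nhdsWithin] with s hs
          exact hs.1.2.symm
        have e10 : c t = c2 t :=
          tendsto_nhds_unique (hct.tendsto.mono_left nhdsWithin_le_nhds) e9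
        exact ⟨⟨e7, e10⟩, htI⟩
      · refine ⟨?_, hc20⟩
        rw [hγ0]
        exact hzs
      · rintro s ⟨⟨hs1, hs2⟩, hs3⟩ y hy
        have hsI : s ∈ Icc 0 T := ⟨hs3.1, hs3.2.le⟩
        have hev : ∀ᶠ t in 𝓝 s, t ∈ I ∧ γ t ∈ χ.source :=
          (hIo.eventually_mem (hIn s hsI)).and
            ((hγc s (hIn s hsI)).eventually_mem (χ.open_source.mem_nhds hs1))
        have hev2 : ∀ᶠ t in 𝓝 s, HasDerivAt c2 (hvf (ham 𝒢) (c2 t)) t :=
          hev.mono fun t ht => hORB t ht.1 ht.2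
        obtain ⟨t, hst, hty, htT, hceq⟩ := EXM_uni (F := hvf (ham 𝒢)) hs3.2 hy
          (EXM_lip 𝒢 (c s) (hc s hsI).1) hs2
          (fun w hw => (hc w ⟨hs3.1.trans hw.1, hw.2⟩).2) hev2
        -- shrink so that γ stays in the source
        obtain ⟨ε, hε, hball⟩ := Metric.eventually_nhds_iff.mp hev
        set t' : ℝ := min t (s + ε / 2) with ht'
        have hst' : s < t' := lt_min hst (by linarith)
        have hd : dist t' s < ε := by
          rw [Real.dist_eq, abs_of_nonneg (by linarith)]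
          have := min_le_right t (s + ε / 2)
          linarith
        exact ⟨t', ⟨(hball hd).2, hceq t' ⟨hst'.le, min_le_left _ _⟩⟩, hst', (min_le_left _ _).trans hty⟩
    have hTT := hmain ⟨hT0, le_refl T⟩
    have hTv : Λ (T • p) = T • v := by
      rw [map_smul]
    refine ⟨⟨?_, ?_⟩, ?_⟩
    · rw [hTv]
      exact hIt T (hIn T ⟨hT0, le_refl T⟩)
    · rw [hTv]
      exact hTT.1
    · rw [hTT.2]
      change χ (γ T) = χ (ψ.symm (Λ (T • p)))
      rw [hTv]

end Pool.Agent.CRO
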