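import Pool.Agent.helper58.CRO.SpecA

open scoped Manifold ContDiff Topology ENNReal
open MeasureTheory Set

noncomputable section

namespace Pool.Agent.CRO

theorem MKT_amgm {n : ℕ} (hn : 1 ≤ n) {M : Matrix (Fin n) (Fin n) ℝ} (hM : M.PosSemidef) :
    (n : ℝ) * M.det ^ ((1 : ℝ) / n) ≤ M.trace := by
  have hn0 : (0 : ℝ) < n := by exact_mod_cast hn
  have hH := hM.isHermitian
  have hev : ∀ i, 0 ≤ hH.eigenvalues i := fun i => hM.eigenvalues_nonneg i
  have h1 : M.det = ∏ i, hH.eigenvalues i := by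
    rw [hH.det_eq_prod_eigenvalues]
    simp
  have h2 : M.trace = ∑ i, hH.eigenvalues i := by
    rw [hH.trace_eq_sum_eigenvalues]
    simp
  have h3 := Real.geom_mean_le_arith_mean_weighted (Finset.univ : Finset (Fin n))
    (fun _ => (1 : ℝ) / n) (fun i => hH.eigenvalues i) (fun _ _ => by positivity)
    (by simp [hn0.ne']) (fun i _ => hev i)
  rw [Real.finsetProd_rpow _ _ (fun i _ => hev i), ← Finset.mul_sum] at h3
  rw [h1, h2]
  calc (n : ℝ) * (∏ i, hH.eigenvalues i) ^ ((1 : ℝ) / n) ≤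
      (n : ℝ) * (1 / n * ∑ i, hH.eigenvalues i) := mul_le_mul_of_nonneg_left h3 hn0.le
    _ = ∑ i, hH.eigenvalues i := by field_simp

open scoped MatrixOrder in
theorem MKT_mat {n : ℕ} (hn : 1 ≤ n) {P Q : Matrix (Fin n) (Fin n) ℝ} (hP : P.PosSemidef)
    (hQ : Q.PosSemidef) : (n : ℝ) * (P.det * Q.det) ^ ((1 : ℝ) / n) ≤ (P * Q).trace := by
  obtain ⟨y, hy⟩ := CStarAlgebra.nonneg_iff_eq_star_mul_self.mp hQ.nonneg
  have h1 : (y * P * y.conjTranspose).PosSemidef := hP.mul_mul_conjTranspose_same y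
  have h2 := MKT_amgm hn h1
  have h3 : (y * P * y.conjTranspose).det = P.det * Q.det := by
    rw [hy, Matrix.star_eq_conjTranspose]
    simp only [Matrix.det_mul]
    ring
  have h4 : (y * P * y.conjTranspose).trace = (P * Q).trace := by
    rw [hy, Matrix.star_eq_conjTranspose, Matrix.mul_assoc, Matrix.trace_mul_comm, Matrix.mul_assoc]
  rw [h3, h4] at h2
  exact h2

theorem MKT_pos {n : ℕ} {A : En n →L[ℝ] En n} (hA : PosDefOp A) :
    (LinearMap.toMatrix (EuclideanSpace.basisFun (Fin n) ℝ).toBasis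
      (EuclideanSpace.basisFun (Fin n) ℝ).toBasis (A : En n →ₗ[ℝ] En n)).PosSemidef := by
  rw [LinearMap.posSemidef_toMatrix_iff]
  refine ⟨fun v w => hA.1 v w, fun v => ?_⟩
  by_cases hv : v = 0
  · simp [hv]
  · have := hA.2 v hv
    simpa using this.le

theorem MKT_det {n : ℕ} {A : En n →L[ℝ] En n} (hA : PosDefOp A) : A.det ≠ 0 := by
  intro h
  have h1 : LinearMap.det (A : En n →ₗ[ℝ] En n) = 0 := h
  have h2 := LinearMap.bot_lt_ker_of_det_eq_zero h1
  obtain ⟨v, hv, hv0⟩ := (Submodule.ne_bot_iff _).mp h2.ne'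
  have h3 := hA.2 v hv0
  have h4 : A v = 0 := hv
  rw [h4, inner_zero_left] at h3
  exact lt_irrefl _ h3

theorem MKT : MKT_stmt := by
  intro n hn S hS
  set e := (EuclideanSpace.basisFun (Fin n) ℝ).toBasis with he
  set Sm := LinearMap.toMatrix e e (S : En n →ₗ[ℝ] En n) with hSm
  have hSp : Sm.PosSemidef := MKT_pos hS
  have hSd : Sm.det = S.det := LinearMap.det_toMatrix e _
  have hS0 : S.det ≠ 0 := MKT_det hS
  have hSpos : 0 < S.det := lt_of_le_of_ne (hSd ▸ hSp.det_nonneg) (Ne.symm hS0)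
  set c : ℝ := S.det ^ ((1 : ℝ) / n) with hc
  have hc0 : 0 < c := Real.rpow_pos_of_pos hSpos _
  set B : En n →L[ℝ] En n := LinearMap.toContinuousLinearMap (Matrix.toLin e e (c • Sm⁻¹)) with hB
  have hBm : LinearMap.toMatrix e e (B : En n →ₗ[ℝ] En n) = c • Sm⁻¹ := by
    rw [hB, LinearMap.coe_toContinuousLinearMap, LinearMap.toMatrix_toLin]
  have htr : ∀ A : En n →L[ℝ] En n, LinearMap.trace ℝ (En n) ((A.comp B : En n →L[ℝ] En n) :
      En n →ₗ[ℝ] En n) = c * (LinearMap.toMatrix e e (A : En n →ₗ[ℝ] En n) * Sm⁻¹).trace := by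
    intro A
    have h1 : ((A.comp B : En n →L[ℝ] En n) : En n →ₗ[ℝ] En n) =
        (A : En n →ₗ[ℝ] En n).comp (B : En n →ₗ[ℝ] En n) := rfl
    rw [h1, LinearMap.trace_eq_matrix_trace ℝ e, LinearMap.toMatrix_comp e e e, hBm,
      Matrix.mul_smul, Matrix.trace_smul, smul_eq_mul]
  refine ⟨B, ?_, ?_⟩
  · rw [htr S, ← hSm, Matrix.mul_nonsing_inv _ (by rw [hSd]; exact isUnit_iff_ne_zero.mpr hS0)]
    simp
    ring
  · intro A hA
    rw [htr A]
    have h1 := MKT_mat hn (MKT_pos hA) hSp.inv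
    have h2 : (LinearMap.toMatrix e e (A : En n →ₗ[ℝ] En n)).det = A.det := LinearMap.det_toMatrix e _
    have hA0 : 0 ≤ A.det := h2 ▸ (MKT_pos hA).det_nonneg
    rw [← he, h2, Matrix.det_nonsing_inv, hSd, Ring.inverse_eq_inv', Real.mul_rpow hA0 (inv_nonneg.mpr hSpos.le),
      Real.inv_rpow hSpos.le, ← hc] at h1
    calc (n : ℝ) * A.det ^ ((1 : ℝ) / n) = c * (n * (A.det ^ ((1 : ℝ) / n) * c⁻¹)) := by
          field_simp
      _ ≤ _ := mul_le_mul_of_nonneg_left h1 hc0.le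

end Pool.Agent.CRO
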